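import Mathlib
import Pool.Agent.Results.MP_7bcc96_al.NonWeylDivision

/-!
# Fixed division rings of an involution of the first Weyl division ring: centre and index
-/

set_option autoImplicit false
set_option linter.unusedSectionVars false

namespace Pool.Agent.Y849.Wy

open Polynomial Pool.Agent.Helper619.Weyl Pool.Agent.Results.MP_7bcc96_al.NonWeylDivision

/-- The centre of the fixed division ring consists of the scalars. -/
theorem centre_FixD (k : Type) [Field k] (e : k →+* ℝ) (z : Dv k)
    (hc : ∀ d ∈ FixD k, z * d = d * z) : ∃ c : k, z = polyD k (C c) := by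
  have : CharZero k := e.charZero
  obtain ⟨I, F, p, rep, hF, hp, h34, hlarge, r1, radd, rmul⟩ := W16.exists_approx k e
  have := hF
  have : ∀ i, Fact (p i).Prime := fun i => ⟨hp i⟩
  obtain ⟨Rep, R1, Radd, Rmul, RC, Rg, Rx⟩ := W12.exists_reduction F p rep r1 radd rmul
  have hR : Apx F Rep := ⟨R1, Radd, Rmul⟩
  exact fix_central h34 hR Rg z hc

/-- scalars are central -/
theorem scalar_comm (k : Type) [Field k] (c : k) (d : Dv k) :
    polyD k (C c) * d = d * polyD k (C c) := by
  have hd : d ∈ Subfield.closure (Set.range (fun c => polyD k (C c)) ∪ {gD k, xD k}) := by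
    rw [closure_consts k]; trivial
  induction hd using Subfield.closure_induction with
  | mem y hy =>
    rcases hy with ⟨b, rfl⟩ | hy
    · show polyD k (C c) * polyD k (C b) = polyD k (C b) * polyD k (C c)
      have h1 := (polyD k).map_mul (C c) (C b)
      have h2 := (polyD k).map_mul (C b) (C c)
      rw [← h1, ← h2, mul_comm]
    · rcases hy with rfl | hy
      · rw [gD, ← map_mul, ← map_mul, mul_comm]
      · rw [Set.mem_singleton_iff.1 hy, xD_mul_polyD]
        congr 2
        simp [shift]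
  | one => rw [mul_one, one_mul]
  | add y z _ _ hy hz => rw [mul_add, add_mul, hy, hz]
  | neg y _ hy => rw [mul_neg, neg_mul, hy]
  | inv y _ hy => exact (show Commute (polyD k (C c)) y from hy).inv_right₀
  | mul y z _ _ hy hz => rw [← mul_assoc, hy, mul_assoc, hz, mul_assoc]

/-- Properties of the image of the fixed division ring. -/
theorem props (k₀ : Type) [Field k₀] (e : k₀ →+* ℝ) {Q : Type} [DivisionRing Q]
    (H : Dv k₀ →+* Q) :
    ¬ IsPI ((FixD k₀).map H) ∧
    ¬ Module.Finite (Subring.center ((FixD k₀).map H)) ((FixD k₀).map H) ∧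
    (∀ (l : Type) [Field l] [CharZero l] (Q' : Type) [DivisionRing Q'] (φ' : A1 l →+* Q'),
      IsQuotientDivisionRing φ' → IsEmpty ((FixD k₀).map H ≃+* Q')) ∧
    (∀ c, H (polyD k₀ (C c)) ∈ (FixD k₀).map H) ∧
    (∀ z ∈ (FixD k₀).map H, (∀ d ∈ (FixD k₀).map H, z * d = d * z) ↔
      ∃ c, z = H (polyD k₀ (C c))) := by
  have : CharZero k₀ := e.charZero
  have : CharZero (Dv k₀) := inferInstance
  have : CharZero Q := charZero_of_injective_ringHom (f := H) H.injective
  set D : Subfield Q := (FixD k₀).map H with hD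
  have : CharZero D := D.subtype.charZero
  have hmem : ∀ d : Dv k₀, d ∈ FixD k₀ → H d ∈ D := fun d hd => ⟨d, hd, rfl⟩
  obtain ⟨u, v, hu, hv, hu0, huv⟩ := exists_pair_FixD k₀
  have hPI := not_PI (D := D) ⟨H u, hmem u hu⟩ ⟨H v, hmem v hv⟩
    (by
      intro h0
      have : H u = 0 := congrArg Subtype.val h0
      exact hu0 ((map_eq_zero H).1 this))
    (by
      apply Subtype.ext
      show H u * H v = (H v + 2) * H u
      rw [← map_mul, huv, map_mul, map_add, map_ofNat])
  refine ⟨hPI.1, hPI.2, ?_, fun c => hmem _ (const_mem_FixD k₀ c), ?_⟩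
  · intro l _ _ Q' _ φ' h'
    refine ⟨fun ε => ?_⟩
    obtain ⟨F', -⟩ := exists_equiv l φ' h'
    let G : FixD k₀ →+* D :=
      (H.comp (FixD k₀).subtype).codRestrict D (fun d => hmem d d.2)
    have hG : Function.Bijective G := by
      refine ⟨G.injective, ?_⟩
      rintro ⟨d, x, hx, rfl⟩
      exact ⟨⟨x, hx⟩, rfl⟩
    exact no_iso k₀ e l (((RingEquiv.ofBijective G hG).trans ε).trans F'.symm)
  · rintro z ⟨z₀, hz₀, rfl⟩
    constructor
    · intro hc
      obtain ⟨c, hc'⟩ := centre_FixD k₀ e z₀ (by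
        intro d hd
        have h1 := hc (H d) (hmem d hd)
        have h2 : H (z₀ * d) = H (d * z₀) := by
          rw [map_mul, map_mul]; exact h1
        exact H.injective h2)
      exact ⟨c, by rw [hc']⟩
    · rintro ⟨c, hc⟩ _ ⟨d, hd, rfl⟩
      rw [hc]
      show H (polyD k₀ (C c)) * H d = H d * H (polyD k₀ (C c))
      rw [← map_mul, scalar_comm, map_mul]

/-- the centre of the image of the fixed division ring is isomorphic to `k₀` -/
theorem centre_equiv (k₀ : Type) [Field k₀] (e : k₀ →+* ℝ) {Q : Type} [DivisionRing Q]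
    (H : Dv k₀ →+* Q) : Nonempty (k₀ ≃+* Subring.center ((FixD k₀).map H)) := by
  obtain ⟨-, -, -, h4, h5⟩ := props k₀ e H
  set D : Subfield Q := (FixD k₀).map H with hD
  let f : k₀ →+* Q := H.comp ((polyD k₀).comp C)
  let g : k₀ →+* D := f.codRestrict D (fun c => h4 c)
  let h : k₀ →+* Subring.center D := g.codRestrict (Subring.center D) (by
    intro c
    rw [Subring.mem_center_iff]
    intro d
    apply Subtype.ext
    have := (h5 (f c) (h4 c)).2 ⟨c, rfl⟩ d d.2
    exact this.symm)
  refine ⟨RingEquiv.ofBijective h ⟨h.injective, ?_⟩⟩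
  rintro ⟨⟨z, hz⟩, hzc⟩
  rw [Subring.mem_center_iff] at hzc
  obtain ⟨c, hc⟩ := (h5 z hz).1 (fun d hd => (congrArg Subtype.val (hzc ⟨d, hd⟩)).symm)
  refine ⟨c, ?_⟩
  apply Subtype.ext
  apply Subtype.ext
  exact hc.symm

/-- the decomposition of the Weyl division ring over the fixed division ring -/
theorem decomp (k : Type) [Field k] [CharZero k] (d : Dv k) :
    ∃ a ∈ FixD k, ∃ b ∈ FixD k, d = a + gD k * b := by
  set g := gD k with hgdef
  have h2 : (2 : Dv k) ≠ 0 := by norm_num
  have hg0 : g ≠ 0 := gD_ne_zero k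
  have ht2 : tau k (2 : Dv k)⁻¹ = 2⁻¹ := by rw [map_inv₀, map_ofNat]
  have ha : 2⁻¹ * (d + tau k d) ∈ FixD k := by
    rw [mem_FixD, map_mul, ht2, map_add, tau_tau, add_comm]
  have hb : g⁻¹ * (2⁻¹ * (d - tau k d)) ∈ FixD k := by
    rw [mem_FixD, map_mul, map_mul, ht2, map_sub, tau_tau, map_inv₀, hgdef, tau_gD, inv_neg,
      neg_mul, ← mul_neg, ← mul_neg, neg_sub]
  refine ⟨_, ha, _, hb, ?_⟩
  rw [mul_inv_cancel_left₀ hg0, ← mul_add]
  have : d + tau k d + (d - tau k d) = 2 * d := by rw [two_mul]; abel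
  rw [this, inv_mul_cancel_left₀ h2]

theorem gD_notMem (k : Type) [Field k] [CharZero k] : gD k ∉ FixD k := by
  rw [mem_FixD, tau_gD]
  intro h
  have h2 : (2 : Dv k) ≠ 0 := by norm_num
  have h3 : 2 * gD k = 0 := by
    rw [two_mul]
    nth_rewrite 1 [← h]
    rw [neg_add_cancel]
  rcases mul_eq_zero.1 h3 with h4 | h4
  · exact h2 h4
  · exact gD_ne_zero k h4

/-- the involution of the Weyl division ring -/
noncomputable def tauE (k : Type) [Field k] : Dv k ≃+* Dv k :=
  RingEquiv.ofRingHom (tau k) (tau k) (RingHom.ext fun d => tau_tau k d)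
    (RingHom.ext fun d => tau_tau k d)

end Pool.Agent.Y849.Wy
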